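import Pool.Agent.N584.PI.Fin

set_option autoImplicit false

/-!
# Solutions to Post's problem and computable permutations

`W r X` is the set c.e. in `X` with index `r`, `J X` is the jump of `X`, `le Y X` is Turing
reducibility `Y ≤_T X` (Mathlib's), `ch P` is the characteristic function of `P`, and `Red c X Y`
says that the program `c` reduces `Y` to `X` (`Pool/Agent/H639/LU/Defs.lean`). `Post r z` says that
`W_r` solves Post's problem on the cone above `z`: `X <_T W_r^X` and `X' ≰_T W_r^X` for all
`X ≥_T z`. `Prg i f` says that the program `i` computes the function `f`. A permutation `π` of `ω`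
is computable if `π` and its inverse are; the image of the set `X` under it is `X ∘ π⁻¹`, so the
sets recursively isomorphic to `X` are the sets `X ∘ π`, `π` a computable permutation.

Lachlan (1975) proved that no solution to Post's problem is uniformly invariant under Turing
equivalence. Here only recursive isomorphisms are used.

1. There are two computable permutations `α`, `β` of `ω` such that no solution to Post's problem
   on a cone is uniformly invariant under them: there are no programs `a`, `a'` and no finite set
   `B` of programs such that, on a cone, `a` reduces `W^(X ∘ α)` and `a'` reduces `W^(X ∘ α⁻¹)` to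
   `W^X`, and some member of `B` reduces `W^(X ∘ β)` to `W^X`.
2. For each solution on a cone and each `k` there is a computable permutation `π` for which no `k`
   programs suffice for the reduction of `W^(X ∘ π)` to `W^X`, in any cone.
3. Local form: if `W^X ≰_T X` on a cone, then for each `k` each degree in some cone contains a set
   `X` such that: if a set c.e. in `V ≥_T X` provides, for each computable permutation `π`, at most
   `k` programs one of which reduces `W^(X ∘ π)` to `V`, then `X' ≤_T V`.
4. If `W_r` solves Post's problem on a cone and `W^(X ∘ π) ≤_T W^X` for all computable permutations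
   `π` (with no uniformity), then some operator `W_s` gives the degree invariant operation
   `Z ↦ W_s^(Z')` on the cone, strictly between the jump and the double jump.

For the proof the oracle `X` is replaced by the set of all (codes of) clopen sets which contain it,
with infinitely many copies, so that truth-table equivalences become recursive isomorphisms. A game
with truth-table decoding, and the recursion theorem for primitive recursive functions, give
codings of `X` for which the number of the elements of a finite set which are in `X'` can be read
off from `W_r`; in contrast to the case of Turing reductions, the use of the decoding has to be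
bounded by a computable function, also while the number of events grows.
-/

namespace Pool.Agent.Results.MP_57825d_lc.ComputablePermutations

open Nat.Partrec (Code)
open Encodable
open Pool.Agent.H639.LU Pool.Agent.N584.PI

theorem result :
    -- 1. two computable permutations
    (∃ α β : Equiv.Perm ℕ, (Computable α ∧ Computable α.symm ∧ Computable β ∧ Computable β.symm) ∧
      ∀ (r : Code) (z₀ : ℕ → Bool), Post r z₀ →
        ¬ ∃ (z : ℕ → Bool) (a a' : Code) (B : Finset Code), ∀ X : ℕ → Bool, le z X →
          Red a (ch (W r X)) (ch (W r (X ∘ α))) ∧
          Red a' (ch (W r X)) (ch (W r (X ∘ α.symm))) ∧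
          ∃ b ∈ B, Red b (ch (W r X)) (ch (W r (X ∘ β)))) ∧
    -- 2. one permutation without `k` candidates
    (∀ (r : Code) (z₀ : ℕ → Bool), Post r z₀ → ∀ k : ℕ,
      ∃ π : Equiv.Perm ℕ, Computable π ∧ Computable π.symm ∧
        ∀ L : Finset Code, L.card ≤ k → ∀ z : ℕ → Bool, ∃ X : ℕ → Bool, le z X ∧
          ∀ l ∈ L, ¬ Red l (ch (W r X)) (ch (W r (X ∘ π)))) ∧
    -- 3. the local form
    (∀ (r : Code) (z₀ : ℕ → Bool), (∀ X, le z₀ X → ¬ le (ch (W r X)) X) → ∀ k : ℕ,
      ∃ z₁ : ℕ → Bool, ∀ A : ℕ → Bool, le z₁ A → ∃ X : ℕ → Bool, le X A ∧ le A X ∧
        ∀ V : ℕ → Bool, le X V → ∀ e : Code,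
          (∀ i j : Code, {l : Code | W e V (encode (i, j, l))}.encard ≤ k) →
          (∀ (π : Equiv.Perm ℕ) (i j : Code), Prg i π → Prg j π.symm →
            ∃ l : Code, W e V (encode (i, j, l)) ∧ Red l V (ch (W r (X ∘ π)))) →
          le (ch (J A)) V) ∧
    -- 4. the degree invariant operation between the jump and the double jump
    (∀ (r : Code) (z₀ : ℕ → Bool), Post r z₀ →
      (∀ π : Equiv.Perm ℕ, Computable π → Computable π.symm → ∀ X, le z₀ X →
        le (ch (W r (X ∘ π))) (ch (W r X))) →
      ∃ s : Code,
        (∀ Z, le z₀ Z → le (ch (J Z)) (ch (W s (ch (J Z)))) ∧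
          ¬ le (ch (W s (ch (J Z)))) (ch (J Z)) ∧
          ¬ le (ch (J (ch (J Z)))) (ch (W s (ch (J Z))))) ∧
        ∀ Z Z', le z₀ Z → le Z Z' → le Z' Z →
          le (ch (W s (ch (J Z')))) (ch (W s (ch (J Z))))) :=
  ⟨fin_TWO, fin_GLB, fin_LOC, fin_DEG⟩

end Pool.Agent.Results.MP_57825d_lc.ComputablePermutations
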